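import Pool.Agent.W467.LO.D
import Pool.Agent.W467.FG.F

/-!
# Bounds on the splitting types from generation by sections (helper467)
-/

set_option autoImplicit false
set_option maxHeartbeats 400000

open MvPolynomial H960VB H938TB Pool.Agent.W615 Pool.Agent.W467.FO

namespace Pool.Agent.W467.LO

variable {n : ℕ} {E : Bundle2 n} (W : Wedge (triv E))

include W in
/-- If `E(d)` is generated by sections at the points of a line of type `(p, q)`, then
`0 ≤ d + q`. -/
theorem low {d : ℤ} {P Q : Fin (n + 1) → ℂ} (hPQ : LinearIndependent ℂ ![P, Q])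
    (hd : ∃ G G' : Vec E.a n, Sec E d G ∧ Sec E d G' ∧ LinearIndependent ℂ ![evv G P, evv G' P])
    {p q : ℤ} (hs : E.SplitsOn P Q p q) : 0 ≤ d + q := by
  have hL := ln_injective hPQ
  obtain ⟨W'⟩ := exists_wedge (le_refl 1) (triv (E.pull (ln P Q) hL))
  obtain ⟨hκ', ω, hω, hres⟩ := wd_restrict (ln P Q) hL W W' (le_refl 1)
  have hsum := Pool.Agent.W467.FX.kappa_of_line W hPQ hs
  obtain ⟨g₁, g₂, hg₁, hg₂, hg⟩ := hs
  have s₁ : Sec (E.pull (ln P Q) hL) (-p) g₁ := by
    apply sec_of_isSection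
    refine ⟨fun i => hg₁ i, fun z hz => ?_⟩
    rw [Bundle2.fib_pull]
    exact (hg z hz).1
  have hz1 : (![1, 0] : Fin (1 + 1) → ℂ) ≠ 0 := fun h => by simpa using congrFun h 0
  have hLP : ln P Q ![1, 0] = P := by
    rw [ln_apply]
    simp
  obtain ⟨G, G', sG, sG', hli⟩ := hd
  by_contra hlt
  push Not at hlt
  have hb : ∀ {s : Vec E.a n}, Sec E d s → W'.wd g₁ (rs (ln P Q) s) = 0 := by
    intro s hs
    rcases wd_homZ W' s₁ (rs_sec (ln P Q) hL hs) with h5 | ⟨k, hk, -⟩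
    · exact h5
    · rw [hκ', hsum] at hk
      omega
  have hev : ∀ (s : Vec E.a n), evv (rs (ln P Q) s) ![1, 0] = evv s P := by
    intro s
    funext i
    have h1 : eval ![1, 0] (lsub (ln P Q) (s i)) = eval (ln P Q ![1, 0]) (s i) := eval_lsub _ _ _
    rw [hLP] at h1
    exact h1
  have h9 : LinearIndependent ℂ
      ![evv (rs (ln P Q) G) ![1, 0], evv (rs (ln P Q) G') ![1, 0]] := by
    rw [hev, hev]
    exact hli
  have h0 : eval ![1, 0] (W'.wd (rs (ln P Q) G) (rs (ln P Q) G')) ≠ 0 :=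
    (W'.ind _ hz1 _ _ (rs_sec (ln P Q) hL sG).ker (rs_sec (ln P Q) hL sG').ker).2 h9
  apply (hg _ hz1).2.2.ne_zero 0
  funext i
  have h1 := congrArg (eval (![1, 0] : Fin (1 + 1) → ℂ)) (W'.three g₁ (rs (ln P Q) G)
    (rs (ln P Q) G') s₁.ker (rs_sec (ln P Q) hL sG).ker (rs_sec (ln P Q) hL sG').ker i)
  rw [hb sG, hb sG'] at h1
  simp only [zero_mul, sub_zero, add_zero, map_mul, map_zero] at h1
  exact (mul_eq_zero.1 h1).resolve_left h0

end Pool.Agent.W467.LO
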