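import Pool.Agent.W467.FO.F

/-!
# Lifts of linear automorphisms on invariant lines (helper467)
-/

set_option autoImplicit false
set_option maxHeartbeats 400000

open MvPolynomial H960VB H938TB Pool.Agent.W615 Pool.Agent.W467.FO

namespace Pool.Agent.W467.LO

variable {n : ℕ} {E : Bundle2 n} {T : (Fin (n + 1) → ℂ) →ₗ[ℂ] (Fin (n + 1) → ℂ)}
variable (O : GOp E T) (W : Wedge (triv E))
variable {L : (Fin (1 + 1) → ℂ) →ₗ[ℂ] (Fin (n + 1) → ℂ)} (hL : Function.Injective L)
variable {δ : (Fin (1 + 1) → ℂ) →ₗ[ℂ] (Fin (1 + 1) → ℂ)} (hδi : Function.Injective δ)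
variable (hLδ : T ∘ₗ L = L ∘ₗ δ) (W' : Wedge (triv (E.pull L hL)))

/-- the defect -/
noncomputable def XX (L : (Fin (1 + 1) → ℂ) →ₗ[ℂ] (Fin (n + 1) → ℂ)) (hL : Function.Injective L)
    (δ : (Fin (1 + 1) → ℂ) →ₗ[ℂ] (Fin (1 + 1) → ℂ)) (W' : Wedge (triv (E.pull L hL)))
    (g : Vec E.a 1) (s t : Vec E.a n) : MvPolynomial (Fin (1 + 1)) ℂ :=
  W'.wd g (rs L (O.D s)) * lsub δ (W'.wd g (rs L t)) -
    W'.wd g (rs L (O.D t)) * lsub δ (W'.wd g (rs L s))

include hδi hLδ in
theorem XX_spec (hκ' : W'.κ.1 = W.κ.1) {p q : ℤ} (hsum : W.κ.1 = p + q) {g₁ : Vec E.a 1}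
    (s₁ : Sec (E.pull L hL) (-p) g₁) (hqp : q ≤ p) :
    ∃ θ : ℂ, (q < p → θ = 0) ∧ ∀ {d e : ℤ} {s t : Vec E.a n}, Sec E d s → Sec E e t →
      XX O L hL δ W' g₁ s t = C θ * lsub δ (lsub L (W.wd s t)) := by
  have hδl : Function.Injective (lsub δ) := lsub_inj_of_surj (surj_of_inj hδi)
  have hLx : ∀ x : Fin (1 + 1) → ℂ, x ≠ 0 → L x ≠ 0 := fun x hx h0 =>
    hx (hL (by rw [h0, map_zero]))
  set b : Vec E.a n → MvPolynomial (Fin (1 + 1)) ℂ := fun s => W'.wd g₁ (rs L s) with hb
  have hbhom : ∀ {d : ℤ} {s : Vec E.a n}, Sec E d s → HomZ (b s) (d + q) := by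
    intro d s hs
    have h1 := wd_homZ W' s₁ (rs_sec L hL hs)
    convert h1 using 1
    rw [hκ', hsum]
    ring
  have hcomm : ∀ f : MvPolynomial (Fin (n + 1)) ℂ, lsub L (lsub T f) = lsub δ (lsub L f) := by
    intro f
    rw [lsub_comp, lsub_comp, hLδ]
  set mm : Vec E.a n → Vec E.a n → MvPolynomial (Fin (1 + 1)) ℂ := fun s t =>
    lsub L (W.wd s t) with hmm
  have r1 : ∀ {d e f : ℤ} {s t r : Vec E.a n}, Sec E d s → Sec E e t → Sec E f r →
      mm s t * b r = mm r t * b s - mm r s * b t := by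
    intro d e f s t r hs ht hr
    have k1 := rs_sec L hL hs
    have k2 := rs_sec L hL ht
    have k3 := rs_sec L hL hr
    have h1 : ∀ i, mm s t * rs L r i = mm r t * rs L s i - mm r s * rs L t i := by
      intro i
      have h2 := congrArg (lsub L) (W.three r s t hr.ker hs.ker ht.ker i)
      simp only [map_add, map_sub, map_mul, map_zero] at h2
      simp only [hmm, rs]
      linear_combination h2
    exact wd_lin W' s₁.ker k1.ker k2.ker k3.ker h1
  have r2 : ∀ {d e f : ℤ} {s t r : Vec E.a n}, Sec E d s → Sec E e t → Sec E f r →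
      lsub δ (mm s t) * b (O.D r) = lsub δ (mm r t) * b (O.D s) - lsub δ (mm r s) * b (O.D t) := by
    intro d e f s t r hs ht hr
    have k1 := rs_sec L hL (O.sec _ _ hs)
    have k2 := rs_sec L hL (O.sec _ _ ht)
    have k3 := rs_sec L hL (O.sec _ _ hr)
    have h1 : ∀ i, lsub δ (mm s t) * rs L (O.D r) i =
        lsub δ (mm r t) * rs L (O.D s) i - lsub δ (mm r s) * rs L (O.D t) i := by
      intro i
      have h2 := congrArg (lsub L) (O.three W hs ht hr i)
      simp only [map_sub, map_mul, hcomm] at h2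
      exact h2
    exact wd_lin W' s₁.ker k1.ker k2.ker k3.ker h1
  set X' : Vec E.a n → Vec E.a n → MvPolynomial (Fin (1 + 1)) ℂ := fun s t =>
    b (O.D s) * lsub δ (b t) - b (O.D t) * lsub δ (b s) with hXX
  have four : ∀ {d e f g : ℤ} {s t r v : Vec E.a n}, Sec E d s → Sec E e t → Sec E f r →
      Sec E g v → mm s t * mm r v - mm s r * mm t v + mm s v * mm t r = 0 := by
    intro d e f g s t r v hs ht hr hv
    have h1 := congrArg (lsub L) (W.four s t r v hs.ker ht.ker hr.ker hv.ker)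
    simp only [map_add, map_sub, map_mul, map_zero] at h1
    exact h1
  have anti : ∀ {d e : ℤ} {s t : Vec E.a n}, Sec E d s → Sec E e t → mm t s = - mm s t := by
    intro d e s t hs ht
    simp only [hmm]
    rw [W.anti t s ht.ker hs.ker, map_neg]
  have cross0 : ∀ {d e f g : ℤ} {s t r v : Vec E.a n}, Sec E d s → Sec E e t → Sec E f r →
      Sec E g v → lsub δ (mm s t) ^ 2 * X' r v = lsub δ (mm s t) * lsub δ (mm r v) * X' s t := by
    intro d e f g s t r v hs ht hr hv
    have a1 := r2 hs ht hr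
    have a2 := r2 hs ht hv
    have b1 := congrArg (lsub δ) (r1 hs ht hr)
    have b2 := congrArg (lsub δ) (r1 hs ht hv)
    have f1 := congrArg (lsub δ) (four hs ht hr hv)
    have c1 := congrArg (lsub δ) (anti hs hr)
    have c2 := congrArg (lsub δ) (anti hs hv)
    have c3 := congrArg (lsub δ) (anti ht hr)
    have c4 := congrArg (lsub δ) (anti ht hv)
    simp only [map_sub, map_mul, map_add, map_neg, map_zero] at b1 b2 f1 c1 c2 c3 c4
    rw [c1, c3] at a1 b1
    rw [c2, c4] at a2 b2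
    simp only [hXX]
    linear_combination (lsub δ (mm s t) * lsub δ (b v)) * a1
      + (- lsub δ (mm t r) * b (O.D s) + lsub δ (mm s r) * b (O.D t)) * b2
      - (lsub δ (mm s t) * lsub δ (b r)) * a2
      - (- lsub δ (mm t v) * b (O.D s) + lsub δ (mm s v) * b (O.D t)) * b1
      - (b (O.D s) * lsub δ (b t) - b (O.D t) * lsub δ (b s)) * f1
  have cross : ∀ {d e f g : ℤ} {s t r v : Vec E.a n}, Sec E d s → Sec E e t → Sec E f r →
      Sec E g v → lsub δ (mm s t) * X' r v = lsub δ (mm r v) * X' s t := by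
    intro d e f g s t r v hs ht hr hv
    by_cases h0 : lsub δ (mm s t) = 0
    · by_cases h1 : lsub δ (mm r v) = 0
      · rw [h0, h1, zero_mul, zero_mul]
      · have h2 := cross0 hr hv hs ht
        rw [h0, mul_zero, zero_mul] at h2
        have h3 : X' s t = 0 := (mul_eq_zero.1 h2).resolve_left (pow_ne_zero _ h1)
        rw [h0, h3, mul_zero, zero_mul]
    · apply mul_left_cancel₀ h0
      have h2 := cross0 hs ht hr hv
      linear_combination h2
  have bD : ∀ {d e : ℤ} {s t : Vec E.a n}, Sec E d s → Sec E e t →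
      HomZ (X' s t) (d + q + (e + q)) := by
    intro d e s t hs ht
    have h1 := hbhom (O.sec _ _ hs)
    have h2 := homZ_lsub δ (hbhom ht)
    have h3 := hbhom (O.sec _ _ ht)
    have h4 := homZ_lsub δ (hbhom hs)
    refine homZ_sub (homZ_of ((wh_triv h1).mul (wh_triv h2))) ?_
    have h5 := homZ_of ((wh_triv h3).mul (wh_triv h4))
    have h6 : (((e + q, 0) + (d + q, 0) : M)).1 = d + q + (e + q) := by
      show e + q + (d + q) = _
      ring
    rwa [h6] at h5
  have mHom : ∀ {d e : ℤ} {s t : Vec E.a n}, Sec E d s → Sec E e t →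
      HomZ (lsub δ (mm s t)) (d + e + (p + q)) := by
    intro d e s t hs ht
    rw [← hsum]
    exact homZ_lsub δ (homZ_lsub L (wd_homZ W hs ht))
  have hne1 : (fun _ => 1 : Fin (1 + 1) → ℂ) ≠ 0 := fun h => by simpa using congrFun h 0
  obtain ⟨d0, e0, s0, t0, hs0, ht0, h0⟩ := exists_sec_ne W _ (hLx _ hne1)
  have hM0 : lsub δ (mm s0 t0) ≠ 0 := by
    intro h3
    have h4 : mm s0 t0 = 0 := hδl (by rw [h3, map_zero])
    apply h0
    rw [← eval_lsub]
    have h5 : lsub L (W.wd s0 t0) = 0 := h4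
    rw [h5, map_zero]
  have hd : lsub δ (mm s0 t0) ∣ X' s0 t0 := by
    refine dvd_of_primes hM0 fun π hπ _ => ?_
    obtain ⟨v, hv, hv0⟩ := no_isolated_prime (le_refl 2) π hπ
    have hδv : δ v ≠ 0 := fun h => hv (hδi (by rw [h, map_zero]))
    obtain ⟨a', b', H, H', hH, hH', h2⟩ := exists_sec_ne W (L (δ v)) (hLx _ hδv)
    refine ⟨lsub δ (mm H H'), X' H H', cross hs0 ht0 hH hH', ?_⟩
    rintro ⟨g, hg⟩
    apply h2
    rw [← eval_lsub, ← eval_lsub]
    have h3 : lsub δ (lsub L (W.wd H H')) = π * g := hg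
    rw [h3, map_mul, hv0, zero_mul]
  obtain ⟨f, hf⟩ := hd
  obtain ⟨θ, hθ, hfθ⟩ : ∃ θ : ℂ, (q < p → θ = 0) ∧ f = C θ := by
    by_cases hf0 : f = 0
    · exact ⟨0, fun _ => rfl, by rw [hf0, C_0]⟩
    · have h1 := wh_triv (bD hs0 ht0)
      rw [hf] at h1
      obtain ⟨e1, e2, hee, he, he'⟩ := hom_of_mul _ h1 (mul_ne_zero hM0 hf0)
      have h2 := congrArg Prod.fst (he.inj_right hM0 (wh_triv (mHom hs0 ht0)))
      have h3 := congrArg Prod.fst hee
      have h5 : e1.1 = d0 + e0 + (p + q) := h2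
      have h6 : e1.1 + e2.1 = d0 + q + (e0 + q) := h3
      rcases homZ_of he' with h4 | ⟨k, hk, h7⟩
      · exact absurd h4 hf0
      · have hk0 : k = 0 := by omega
        subst hk0
        have h8 := (totalDegree_zero_iff_isHomogeneous (p := f)).2 h7
        refine ⟨_, fun hqp' => ?_, totalDegree_eq_zero_iff_eq_C.1 h8⟩
        omega
  refine ⟨θ, hθ, ?_⟩
  intro d e s t hs ht
  show X' s t = C θ * lsub δ (mm s t)
  apply mul_left_cancel₀ hM0
  rw [cross hs0 ht0 hs ht, hf, hfθ]
  ring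

include hδi hLδ in
/-- the quotient line bundle of an invariant line -/
theorem core (hκ' : W'.κ.1 = W.κ.1) {ω : ℂ} (hω : ω ≠ 0)
    (hres : ∀ s t : Vec E.a n, Ker E s → Ker E t →
      W'.wd (rs L s) (rs L t) = C ω * lsub L (W.wd s t)) {p q : ℤ} (hsum : W.κ.1 = p + q)
    {g₁ : Vec E.a 1} (s₁ : Sec (E.pull L hL) (-p) g₁) (hg : ∀ z, z ≠ 0 → evv g₁ z ≠ 0)
    (hX : ∀ {d e : ℤ} {s t : Vec E.a n}, Sec E d s → Sec E e t → XX O L hL δ W' g₁ s t = 0) :
    ∃ τ : ℂ, ∀ (z : Fin (1 + 1) → ℂ) (l : ℂ), z ≠ 0 → l ≠ 0 → δ z = l • z →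
      (∀ (d : ℤ) (α : ℂ) (s : S0 E d), O.GE d α s → eval z (W'.wd g₁ (rs L s.1)) ≠ 0 →
        α = τ * l ^ (d + q)) ∧
      ∃ (d : ℤ) (α : ℂ) (s : S0 E d), O.GE d α s ∧ eval z (W'.wd g₁ (rs L s.1)) ≠ 0 := by
  have hδl : Function.Injective (lsub δ) := lsub_inj_of_surj (surj_of_inj hδi)
  have hLx : ∀ x : Fin (1 + 1) → ℂ, x ≠ 0 → L x ≠ 0 := fun x hx h0 =>
    hx (hL (by rw [h0, map_zero]))
  set b : Vec E.a n → MvPolynomial (Fin (1 + 1)) ℂ := fun s => W'.wd g₁ (rs L s) with hb
  have hbhom : ∀ {d : ℤ} {s : Vec E.a n}, Sec E d s → HomZ (b s) (d + q) := by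
    intro d s hs
    have h1 := wd_homZ W' s₁ (rs_sec L hL hs)
    convert h1 using 1
    rw [hκ', hsum]
    ring
  have hne1 : (fun _ => 1 : Fin (1 + 1) → ℂ) ≠ 0 := fun h => by simpa using congrFun h 0
  -- the components do not vanish simultaneously
  have bne : ∀ (z : Fin (1 + 1) → ℂ), z ≠ 0 → ∀ {d e : ℤ} {s t : Vec E.a n}, Sec E d s →
      Sec E e t → eval (L z) (W.wd s t) ≠ 0 → eval z (b s) ≠ 0 ∨ eval z (b t) ≠ 0 := by
    intro z hz d e s t hs ht h
    by_contra hc1
    push Not at hc1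
    obtain ⟨e1, e2⟩ := hc1
    have k1 := rs_sec L hL hs
    have k2 := rs_sec L hL ht
    apply hg z hz
    funext i
    have h1 := congrArg (eval z) (W'.three g₁ (rs L s) (rs L t) s₁.ker k1.ker k2.ker i)
    simp only [map_add, map_sub, map_mul, map_zero] at h1
    have e1' : eval z (W'.wd g₁ (rs L s)) = 0 := e1
    have e2' : eval z (W'.wd g₁ (rs L t)) = 0 := e2
    rw [e1', e2', zero_mul, zero_mul, sub_zero, add_zero] at h1
    have h3 : eval z (W'.wd (rs L s) (rs L t)) ≠ 0 := by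
      rw [hres _ _ hs.ker ht.ker, map_mul, eval_C, eval_lsub]
      exact mul_ne_zero hω h
    exact (mul_eq_zero.1 h1).resolve_left h3
  -- the factor
  obtain ⟨d0, s0, hs0, hb0⟩ : ∃ (d : ℤ) (s : Vec E.a n), Sec E d s ∧ b s ≠ 0 := by
    obtain ⟨a', b', H, H', hH, hH', h2⟩ := exists_sec_ne W _ (hLx _ hne1)
    rcases bne _ hne1 hH hH' h2 with h | h
    · exact ⟨a', H, hH, fun h0 => h (by rw [h0, map_zero])⟩
    · exact ⟨b', H', hH', fun h0 => h (by rw [h0, map_zero])⟩
  have hD0 : lsub δ (b s0) ≠ 0 := fun h => hb0 (hδl (by rw [h, map_zero]))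
  have hrel : ∀ {d e : ℤ} {s t : Vec E.a n}, Sec E d s → Sec E e t →
      b (O.D s) * lsub δ (b t) = b (O.D t) * lsub δ (b s) := by
    intro d e s t hs ht
    have h1 : b (O.D s) * lsub δ (b t) - b (O.D t) * lsub δ (b s) = 0 := hX hs ht
    exact sub_eq_zero.1 h1
  obtain ⟨τ, hτ0⟩ : ∃ τ : ℂ, b (O.D s0) = C τ * lsub δ (b s0) := by
    have hd : lsub δ (b s0) ∣ b (O.D s0) := by
      refine dvd_of_primes hD0 fun π hπ _ => ?_
      obtain ⟨v, hv, hv0⟩ := no_isolated_prime (le_refl 2) π hπ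
      have hδv : δ v ≠ 0 := fun h => hv (hδi (by rw [h, map_zero]))
      obtain ⟨a', b', H, H', hH, hH', h2⟩ := exists_sec_ne W (L (δ v)) (hLx _ hδv)
      have key : ∀ {e : ℤ} {t : Vec E.a n}, Sec E e t → eval (δ v) (b t) ≠ 0 →
          ∃ a' b', lsub δ (b s0) * b' = a' * b (O.D s0) ∧ ¬ π ∣ a' := by
        intro e t ht h
        refine ⟨lsub δ (b t), b (O.D t), ?_, ?_⟩
        · have := hrel hs0 ht
          linear_combination -this
        · rintro ⟨g, hg⟩
          apply h
          rw [← eval_lsub, hg, map_mul, hv0, zero_mul]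
      rcases bne _ hδv hH hH' h2 with h | h
      · exact key hH h
      · exact key hH' h
    obtain ⟨f, hf⟩ := hd
    by_cases hf0 : f = 0
    · exact ⟨0, by rw [hf, hf0, C_0, mul_zero, zero_mul]⟩
    · have h1 := wh_triv (hbhom (O.sec _ _ hs0))
      rw [hf] at h1
      obtain ⟨e, e', hee, he, he'⟩ := hom_of_mul _ h1 (mul_ne_zero hD0 hf0)
      have h2 : e = (d0 + q, 0) := he.inj_right hD0 (wh_triv (homZ_lsub δ (hbhom hs0)))
      rw [h2] at hee
      have h3 : e' = 0 := by
        have := add_left_cancel (a := ((d0 + q, 0) : M)) (b := e') (c := 0)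
          (by rw [hee, add_zero])
        exact this
      obtain ⟨c, -, hc⟩ := const_of_degree_zero he' hf0 (by rw [h3]; rfl)
      exact ⟨c, by rw [hf, hc, mul_comm]⟩
  have hτ : ∀ {d : ℤ} {s : Vec E.a n}, Sec E d s → b (O.D s) = C τ * lsub δ (b s) := by
    intro d s hs
    apply mul_left_cancel₀ hD0
    have h1 := hrel hs0 hs
    rw [hτ0] at h1
    linear_combination -h1
  refine ⟨τ, fun z l hz hl hδz => ?_⟩
  obtain ⟨d, hd⟩ := O.exists_ge W
  refine ⟨?_, ?_⟩
  · intro d α s hs hb1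
    let bB : S0 E d →ₗ[ℂ] MvPolynomial (Fin (1 + 1)) ℂ :=
      { toFun := fun s => b s.1
        map_add' := by
          intro s t
          have k1 := rs_sec L hL s.2
          have k2 := rs_sec L hL t.2
          have h1 : rs L (s + t).1 = fun i => rs L s.1 i + rs L t.1 i := by
            funext i
            exact map_add (lsub L) _ _
          exact (congrArg (W'.wd g₁) h1).trans (wd_add_right W' k1.ker k2.ker s₁.ker)
        map_smul' := by
          intro c s
          have k1 := rs_sec L hL s.2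
          have h1 : rs L (c • s).1 = fun i => C c * rs L s.1 i := by
            funext i
            have h3 : (c • s).1 i = C c * s.1 i := by
              rw [← smul_eq_C_mul]
              rfl
            show lsub L ((c • s).1 i) = C c * lsub L (s.1 i)
            rw [h3, map_mul]
            congr 1
            exact (lsub L).commutes c
          refine (congrArg (W'.wd g₁) h1).trans ((wd_mul_right W' k1.ker s₁.ker _).trans ?_)
          rw [RingHom.id_apply, smul_eq_C_mul] }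
    let hLm : MvPolynomial (Fin (1 + 1)) ℂ →ₗ[ℂ] MvPolynomial (Fin (1 + 1)) ℂ :=
      τ • (lsub δ).toLinearMap
    have inter : ∀ s : S0 E d, bB (O.lin d s) = hLm (bB s) := by
      intro s
      have h1 := hτ s.2
      show b (O.D s.1) = τ • lsub δ (b s.1)
      rw [h1, smul_eq_C_mul]
    have inter2 : ∀ (α : ℂ) (k : ℕ) (s : S0 E d),
        bB (((O.lin d - α • 1) ^ k) s) = ((hLm - α • 1) ^ k) (bB s) := by
      intro α k
      induction k with
      | zero => intro s; rw [pow_zero, pow_zero, Module.End.one_apply, Module.End.one_apply]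
      | succ k ih =>
        intro s
        rw [pow_succ, pow_succ, Module.End.mul_apply, Module.End.mul_apply, ih]
        congr 1
        simp only [LinearMap.sub_apply, LinearMap.smul_apply, Module.End.one_apply, map_sub,
          map_smul, inter]
    have evp : ∀ (α : ℂ) (N : ℤ) (k : ℕ) (f : MvPolynomial (Fin (1 + 1)) ℂ), HomZ f N →
        eval z (((hLm - α • 1) ^ k) f) = (τ * l ^ N - α) ^ k * eval z f := by
      intro α N k
      induction k with
      | zero => intro f _; rw [pow_zero, pow_zero, one_mul, Module.End.one_apply]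
      | succ k ih =>
        intro f hf
        have h1 : (hLm - α • 1) f = τ • lsub δ f - α • f := rfl
        have h2 : HomZ ((hLm - α • 1) f) N := by
          rw [h1]
          exact homZ_sub (homZ_smul (homZ_lsub δ hf) _) (homZ_smul hf _)
        rw [pow_succ, Module.End.mul_apply, ih _ h2, h1, map_sub, smul_eval, smul_eval, eval_lsub,
          hδz, eval_smul_homZ hf]
        ring
    obtain ⟨k, hk⟩ := hs
    have h1 := inter2 α k s
    rw [hk, map_zero] at h1
    have h2 := evp α (d + q) k (bB s) (hbhom s.2)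
    rw [← h1, map_zero] at h2
    have h3 := (mul_eq_zero.1 h2.symm).resolve_right hb1
    by_cases hk0 : k = 0
    · rw [hk0, pow_zero] at h3
      exact absurd h3 one_ne_zero
    · have h4 := (pow_eq_zero_iff hk0).1 h3
      linear_combination -h4
  · obtain ⟨α, β, s, t, hs, ht, hne⟩ := hd (L z) (hLx z hz)
    rcases bne z hz s.2 t.2 hne with h | h
    · exact ⟨d, α, s, hs, h⟩
    · exact ⟨d, β, t, ht, h⟩

end Pool.Agent.W467.LO
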