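import Pool.Agent.W467.LO.A

/-!
# Types at the two fixed points of an invariant line (helper467)
-/

set_option autoImplicit false
set_option maxHeartbeats 400000

open MvPolynomial H960VB H938TB Pool.Agent.W615 Pool.Agent.W467.FO

namespace Pool.Agent.W467.LO

/-- a nonzero root of a binary quadratic form -/
theorem exists_root (A B D : ℂ) : ∃ x y : ℂ, (x ≠ 0 ∨ y ≠ 0) ∧
    A * x ^ 2 + B * (x * y) + D * y ^ 2 = 0 := by
  by_cases hA : A = 0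
  · exact ⟨1, 0, Or.inl one_ne_zero, by rw [hA]; ring⟩
  · obtain ⟨s, hs⟩ := IsAlgClosed.exists_pow_nat_eq (B ^ 2 - 4 * A * D) (n := 2) (by norm_num)
    refine ⟨(-B + s) / (2 * A), 1, Or.inr one_ne_zero, ?_⟩
    field_simp
    linear_combination hs

variable {n : ℕ} {E : Bundle2 n} {T : (Fin (n + 1) → ℂ) →ₗ[ℂ] (Fin (n + 1) → ℂ)}
variable (O : GOp E T) (W : Wedge (triv E))

theorem sec_C {m : ℕ} {E' : Bundle2 m} {d : ℤ} {g : Vec E'.a m} (h : Sec E' d g) (x : ℂ) :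
    Sec E' d (fun i => C x * g i) := by
  have h1 : HomZ (C x : MvPolynomial (Fin (m + 1)) ℂ) 0 := Or.inr ⟨0, rfl, isHomogeneous_C _ _⟩
  have h2 := sec_mul h1 h
  rwa [zero_add] at h2

theorem lsub_C {m k : ℕ} (S : (Fin (m + 1) → ℂ) →ₗ[ℂ] (Fin (k + 1) → ℂ)) (c : ℂ) :
    lsub S (C c) = C c := (lsub S).commutes c

section
variable {L : (Fin (1 + 1) → ℂ) →ₗ[ℂ] (Fin (n + 1) → ℂ)} (hL : Function.Injective L)
variable {δ : (Fin (1 + 1) → ℂ) →ₗ[ℂ] (Fin (1 + 1) → ℂ)} (hδi : Function.Injective δ)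
variable (hLδ : T ∘ₗ L = L ∘ₗ δ) (W' : Wedge (triv (E.pull L hL)))

theorem XX_lin {g₁ g₂ : Vec E.a 1} {d₁ d₂ : ℤ} (s₁ : Sec (E.pull L hL) d₁ g₁)
    (s₂ : Sec (E.pull L hL) d₂ g₂) (x y : ℂ) {g : Vec E.a 1}
    (hg : g = fun i => C x * g₁ i + C y * g₂ i) {d e : ℤ} {s t : Vec E.a n} (hs : Sec E d s)
    (ht : Sec E e t) :
    XX O L hL δ W' g s t =
      C (x ^ 2) * XX O L hL δ W' g₁ s t + C (x * y) *
        (W'.wd g₁ (rs L (O.D s)) * lsub δ (W'.wd g₂ (rs L t)) +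
          W'.wd g₂ (rs L (O.D s)) * lsub δ (W'.wd g₁ (rs L t)) -
          W'.wd g₁ (rs L (O.D t)) * lsub δ (W'.wd g₂ (rs L s)) -
          W'.wd g₂ (rs L (O.D t)) * lsub δ (W'.wd g₁ (rs L s))) +
      C (y ^ 2) * XX O L hL δ W' g₂ s t := by
  have key : ∀ {e : ℤ} {r : Vec E.a n}, Sec E e r →
      W'.wd g (rs L r) =
        C x * W'.wd g₁ (rs L r) + C y * W'.wd g₂ (rs L r) := by
    intro e r hr
    subst hg
    have k1 := (rs_sec L hL hr).ker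
    have k2 := (sec_C s₁ x).ker
    have k3 := (sec_C s₂ y).ker
    exact (wd_add_left W' k2 k3 k1).trans
      (congrArg₂ (· + ·) (W'.smul _ _ _ s₁.ker k1) (W'.smul _ _ _ s₂.ker k1))
  unfold XX
  rw [key hs, key ht, key (O.sec _ _ hs), key (O.sec _ _ ht)]
  simp only [map_add, map_mul, lsub_C, map_pow]
  ring

include hδi hLδ in
theorem exists_good (hκ' : W'.κ.1 = W.κ.1) {p q : ℤ} (hsum : W.κ.1 = p + q) {g₁ g₂ : Vec E.a 1}
    (s₁ : Sec (E.pull L hL) (-p) g₁) (s₂ : Sec (E.pull L hL) (-q) g₂) (hqp : q ≤ p)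
    (hg : ∀ z : Fin (1 + 1) → ℂ, z ≠ 0 → LinearIndependent ℂ ![evv g₁ z, evv g₂ z]) :
    ∃ g : Vec E.a 1, Sec (E.pull L hL) (-p) g ∧ (∀ z, z ≠ 0 → evv g z ≠ 0) ∧
      ∀ {d e : ℤ} {s t : Vec E.a n}, Sec E d s → Sec E e t → XX O L hL δ W' g s t = 0 := by
  obtain ⟨θ₁, hθ₁, h1⟩ := XX_spec O W hL hδi hLδ W' hκ' hsum s₁ hqp
  rcases lt_or_eq_of_le hqp with hlt | heq
  · refine ⟨g₁, s₁, fun z hz => (hg z hz).ne_zero 0, fun {d e s t} hs ht => ?_⟩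
    rw [h1 hs ht, hθ₁ hlt, C_0, zero_mul]
  · subst heq
    obtain ⟨θ₂, -, h2⟩ := XX_spec O W hL hδi hLδ W' hκ' hsum s₂ (le_refl _)
    obtain ⟨g₃, hg₃, s₃⟩ : ∃ g : Vec E.a 1, (g = fun i => C 1 * g₁ i + C 1 * g₂ i) ∧
        Sec (E.pull L hL) (-q) g := ⟨_, rfl, sec_add (sec_C s₁ 1) (sec_C s₂ 1)⟩
    obtain ⟨θ₃, -, h3⟩ := XX_spec O W hL hδi hLδ W' hκ' hsum s₃ (le_refl _)
    obtain ⟨x, y, hxy, hroot⟩ := exists_root θ₁ (θ₃ - θ₁ - θ₂) θ₂
    obtain ⟨g₄, hg₄, s₄⟩ : ∃ g : Vec E.a 1, (g = fun i => C x * g₁ i + C y * g₂ i) ∧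
        Sec (E.pull L hL) (-q) g := ⟨_, rfl, sec_add (sec_C s₁ x) (sec_C s₂ y)⟩
    refine ⟨g₄, s₄, ?_, ?_⟩
    · intro z hz h0
      have h4 := hg z hz
      rw [LinearIndependent.pair_iff] at h4
      obtain ⟨e1, e2⟩ := h4 x y (by
        funext i
        rw [hg₄] at h0
        have h5 := congrFun h0 i
        have h6 : eval z (C x * g₁ i + C y * g₂ i) = 0 := h5
        rw [map_add, map_mul, map_mul, eval_C, eval_C] at h6
        exact h6)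
      rcases hxy with h | h
      · exact h e1
      · exact h e2
    · intro d e s t hs ht
      have a1 := XX_lin O hL (δ := δ) W' s₁ s₂ x y hg₄ hs ht
      have a2 := XX_lin O hL (δ := δ) W' s₁ s₂ 1 1 hg₃ hs ht
      have a3 := h3 hs ht
      rw [a3, h1 hs ht, h2 hs ht] at a2
      rw [a1, h1 hs ht, h2 hs ht]
      have hr := congrArg (C : ℂ → MvPolynomial (Fin (1 + 1)) ℂ) hroot
      simp only [map_add, map_mul, map_pow, map_sub, map_one, map_zero] at hr a2 ⊢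
      linear_combination lsub δ (lsub L (W.wd s t)) * hr - C x * C y * a2

end

/-- the types at the two fixed points of a line, and the direction at one of them. -/
theorem lineK {P Q : Fin (n + 1) → ℂ} (hPQ : LinearIndependent ℂ ![P, Q]) {m l : ℂ}
    (hm : m ≠ 0) (hl : l ≠ 0) (hP : T P = m • P) (hQ : T Q = l • Q) {p q : ℤ}
    (hs : E.SplitsOn P Q p q) (hqp : q ≤ p) : W.κ.1 = p + q ∧ ∃ τ : ℂ,
    (∃ (d : ℤ) (α : ℂ) (s : S0 E d), O.GE d α s ∧ evv (s : Vec E.a n) Q ≠ 0 ∧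
      α = τ * l ^ (d + q)) ∧
    (∃ (d : ℤ) (α : ℂ) (s : S0 E d), O.GE d α s ∧ evv (s : Vec E.a n) P ≠ 0 ∧
      α = τ * m ^ (d + q)) ∧
    (q < p → ∀ g : Vec E.a 1, Sec (E.pull (ln P Q) (ln_injective hPQ)) (-p) g →
      ∀ (d : ℤ) (α : ℂ) (s : S0 E d), O.GE d α s → evv (s : Vec E.a n) P ≠ 0 →
        α ≠ τ * m ^ (d + q) → ∃ c : ℂ, evv g ![1, 0] = c • evv (s : Vec E.a n) P) := by
  have hL := ln_injective hPQ
  have hδi : Function.Injective (dg m l) := dg_injective hm hl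
  have hLδ : T ∘ₗ ln P Q = ln P Q ∘ₗ dg m l := ln_comp hP hQ
  obtain ⟨W'⟩ := exists_wedge (le_refl 1) (triv (E.pull (ln P Q) hL))
  obtain ⟨hκ', ω, hω, hres⟩ := wd_restrict (ln P Q) hL W W' (le_refl 1)
  obtain ⟨g₁, g₂, hg₁, hg₂, hg⟩ := hs
  have s₁ : Sec (E.pull (ln P Q) hL) (-p) g₁ := by
    apply sec_of_isSection
    refine ⟨fun i => hg₁ i, fun z hz => ?_⟩
    rw [Bundle2.fib_pull]
    exact (hg z hz).1
  have s₂ : Sec (E.pull (ln P Q) hL) (-q) g₂ := by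
    apply sec_of_isSection
    refine ⟨fun i => hg₂ i, fun z hz => ?_⟩
    rw [Bundle2.fib_pull]
    exact (hg z hz).2.1
  obtain ⟨c, hc, hc'⟩ := const_of_no_zero (m := 1 + 1) (le_refl 2) (p := W'.wd g₁ g₂)
    (fun z hz => (W'.ind z hz g₁ g₂ s₁.ker s₂.ker).2 (hg z hz).2.2)
  have hsum : W.κ.1 = p + q := by
    have h1 := wh_triv (wd_homZ W' s₁ s₂)
    rw [hc'] at h1
    have h2 : IsWeightedHomogeneous (tw (0 : Fin (1 + 1) → ℤ × ℤ)) (C c : MvPolynomial _ ℂ)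
        ((0, 0) : M) := wh_triv (Or.inr ⟨0, rfl, isHomogeneous_C _ c⟩)
    have h3 := congrArg Prod.fst (h1.inj_right (by rw [Ne, C_eq_zero]; exact hc) h2)
    rw [← hκ']
    have h4 : -p + -q + W'.κ.1 = 0 := h3
    linarith
  obtain ⟨G, sG, hG0, hX⟩ := exists_good O W hL hδi hLδ W' hκ' hsum s₁ s₂ hqp
    (fun z hz => (hg z hz).2.2)
  obtain ⟨τ, hτ⟩ := core O W hL hδi hLδ W' hκ' hω hres hsum sG hG0 hX
  have hLP : ln P Q ![1, 0] = P := by
    rw [ln_apply]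
    simp
  have hLQ : ln P Q ![0, 1] = Q := by
    rw [ln_apply]
    simp
  have hz1 : (![1, 0] : Fin (1 + 1) → ℂ) ≠ 0 := fun h => by simpa using congrFun h 0
  have hz2 : (![0, 1] : Fin (1 + 1) → ℂ) ≠ 0 := fun h => by simpa using congrFun h 1
  have hev : ∀ (s : Vec E.a n) (z : Fin (1 + 1) → ℂ), evv (rs (ln P Q) s) z = evv s (ln P Q z) := by
    intro s z
    funext i
    exact eval_lsub _ _ _
  obtain ⟨a1, a2⟩ := hτ ![1, 0] m hz1 hm (by
    ext i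
    fin_cases i <;> simp [FO.dg])
  obtain ⟨b1, b2⟩ := hτ ![0, 1] l hz2 hl (by
    ext i
    fin_cases i <;> simp [FO.dg])
  have nz : ∀ (z : Fin (1 + 1) → ℂ), z ≠ 0 → ∀ {d : ℤ} (s : S0 E d),
      eval z (W'.wd G (rs (ln P Q) s.1)) ≠ 0 → evv (s : Vec E.a n) (ln P Q z) ≠ 0 := by
    intro z hz d s h
    have h1 := (W'.ind z hz G _ sG.ker (rs_sec (ln P Q) hL s.2).ker).1 h
    have h2 := h1.ne_zero 1
    rw [← hev]
    exact h2
  refine ⟨hsum, τ, ?_, ?_, ?_⟩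
  · obtain ⟨d, α, s, hs, h⟩ := b2
    refine ⟨d, α, s, hs, ?_, b1 d α s hs h⟩
    have := nz _ hz2 s h
    rwa [hLQ] at this
  · obtain ⟨d, α, s, hs, h⟩ := a2
    refine ⟨d, α, s, hs, ?_, a1 d α s hs h⟩
    have := nz _ hz1 s h
    rwa [hLP] at this
  · intro hlt g sg d α s hs hsP hα
    have h1 : eval ![1, 0] (W'.wd G (rs (ln P Q) s.1)) = 0 := by
      by_contra h
      exact hα (a1 d α s hs h)
    have h2 : ¬ LinearIndependent ℂ ![evv G ![1, 0], evv (rs (ln P Q) s.1) ![1, 0]] := fun h =>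
      (W'.ind _ hz1 G _ sG.ker (rs_sec (ln P Q) hL s.2).ker).2 h h1
    rw [hev, hLP] at h2
    have h3 : W'.wd G g = 0 := by
      have h4 := wd_homZ W' sG sg
      rcases h4 with h5 | ⟨k, hk, -⟩
      · exact h5
      · rw [hκ', hsum] at hk
        omega
    have hG1 := hG0 _ hz1
    rw [LinearIndependent.pair_iff' hG1] at h2
    push Not at h2
    obtain ⟨a, ha⟩ := h2
    have ha0 : a ≠ 0 := by
      rintro rfl
      rw [zero_smul] at ha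
      exact hsP ha.symm
    obtain ⟨i₀, hi₀⟩ : ∃ i, evv G ![1, 0] i ≠ 0 := by
      by_contra hc
      push Not at hc
      exact hG1 (funext hc)
    refine ⟨evv g ![1, 0] i₀ / evv G ![1, 0] i₀ * a⁻¹, ?_⟩
    have h5 : evv G ![1, 0] = a⁻¹ • evv (s : Vec E.a n) P := by
      rw [← ha, smul_smul, inv_mul_cancel₀ ha0, one_smul]
    rw [mul_smul, ← h5]
    funext i
    have h6 := congrArg (eval (![1, 0] : Fin (1 + 1) → ℂ)) (par_of_wd W' sG.ker sg.ker h3 i₀ i)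
    rw [map_mul, map_mul] at h6
    have h7 : evv G ![1, 0] i₀ * evv g ![1, 0] i = evv G ![1, 0] i * evv g ![1, 0] i₀ := h6
    rw [Pi.smul_apply, smul_eq_mul, div_mul_eq_mul_div, eq_div_iff hi₀]
    linear_combination h7

end Pool.Agent.W467.LO
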