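import Pool.Agent.H960R2.VB.Main1

/-!
# A splitting criterion with a constant direction at the base point (helper467)
-/

set_option autoImplicit false
set_option maxHeartbeats 400000

open MvPolynomial H960VB H960VB.Bundle2

namespace Pool.Agent.W467.LO

variable {n : ℕ}

/-- If all lines through the base point have the type `(a, b)`, `b < a`, and the destabilising
sections all have the same direction at the base point, then the bundle splits. -/
theorem splits_of_dir (hn : 2 ≤ n) (E : Bundle2 n) {a b : ℤ} (hba : b < a)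
    (hs : ∀ v : Fin n → ℂ, v ≠ 0 → E.SplitsOn (Fin.cons 1 0) (Fin.cons 0 v) a b)
    (e₁ : Fin E.a → ℂ) (he₁ : e₁ ∈ E.fib (Fin.cons 1 0)) (he0 : e₁ ≠ 0)
    (hdir : ∀ v : Fin n → ℂ, v ≠ 0 → ∀ g ∈ E.Hsec (-a) v, ∃ c : ℂ, E.cf g 0 = c • e₁) :
    E.Splits := by
  obtain ⟨c₁, P, hP, hP0, hPw⟩ := plucker (by omega : 2 ≤ n + 1) E.β E.γ E.B E.hom E.rank_two
  have hv1 : (fun _ : Fin n => (1 : ℂ)) ≠ 0 := by
    intro h
    have := congrFun h ⟨0, by omega⟩
    simp at this
  have hsum := splitsOn_sum E c₁ P hP hP0 hPw _ hv1 a b (hs _ hv1)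
  have hfr : ∀ v : Fin n → ℂ, v ≠ 0 → ∀ j : ℤ,
      Module.finrank ℂ (E.Hsec j v) = (a + j + 1).toNat + (b + j + 1).toNat :=
    fun v hv j => finrank_Hsec E v hv a b (hs v hv) j
  have hbot : ∀ v : Fin n → ℂ, v ≠ 0 → E.Hsec (-a - 1) v = ⊥ := by
    intro v hv
    rw [← Submodule.finrank_eq_zero (R := ℂ), hfr v hv]
    omega
  obtain ⟨w, hw⟩ : ∃ w : ℕ, (w : ℤ) = a - b := ⟨(a - b).toNat, by omega⟩
  obtain ⟨e', μ, lam, -, hμ1, -, -, -, -⟩ := exists_dual E e₁ he₁ he0
  obtain ⟨F, hF, hFm⟩ := sec_family hn E (-a) (N := 1) (fun _ => 0) (fun _ => μ) (fun _ => 1) 0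
    (fun _ _ => rfl)
    (by
      intro v hv g hg h1
      obtain ⟨c, hc⟩ := hdir v hv g hg
      have h2 : μ ⬝ᵥ E.cf g 0 = 0 := h1 0
      rw [hc, dotProduct_smul, hμ1, smul_eq_mul, mul_one] at h2
      have h0 : ∀ b' < 1, E.cf g b' = 0 := by
        intro b' hb'
        have : b' = 0 := by omega
        rw [this, hc, h2, zero_smul]
      apply eq_zero_of_sh E g 1 (j' := -a - 1) (by push_cast; ring) h0
      have := sh_mem E v g hg 1 (j' := -a - 1) (by push_cast; ring) h0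
      rw [hbot v hv] at this
      simpa using this)
    (by
      intro v hv
      rw [hfr v hv]
      omega)
  refine splits_of_family hn E c₁ P hP hP0 hPw a b w hw (by omega) hbot
    (fun v hv => by rw [hfr v hv]; omega) F (fun x => by simpa using hF x)
    (fun v hv => (hFm v hv).1) e₁ he0 fun v hv => ?_
  obtain ⟨hm, h1⟩ := hFm v hv
  obtain ⟨c, hc⟩ := hdir v hv _ hm
  have h2 : μ ⬝ᵥ E.cf (evv F v) 0 = 1 := h1 0
  rw [hc, dotProduct_smul, hμ1, smul_eq_mul, mul_one] at h2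
  rw [hc, h2, one_smul]

end Pool.Agent.W467.LO
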