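import Pool.Agent.W467.LO.B
import Pool.Agent.W467.LO.C
import Pool.Agent.H106R3.VB.Jump

/-!
# Symmetries of finite order with one large eigenspace (helper467)
-/

set_option autoImplicit false
set_option maxHeartbeats 400000

open MvPolynomial H960VB H938TB Pool.Agent.W615 Pool.Agent.W467.FO

namespace Pool.Agent.W467.LO

variable {n : ℕ} {E : Bundle2 n} {T : (Fin (n + 1) → ℂ) →ₗ[ℂ] (Fin (n + 1) → ℂ)}
variable (O : GOp E T) (W : Wedge (triv E))

/-- the relation between the types at a fixed point -/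
theorem point_rel {κ : ℂ} (hκ : ∀ (a b : ℤ) (s t : Vec E.a n), Sec E a s → Sec E b t →
      W.wd (O.D s) (O.D t) = C κ * lsub T (W.wd s t)) {P : Fin (n + 1) → ℂ} {m : ℂ}
    (hP : T P = m • P) {d e : ℤ} {α β : ℂ} {s : S0 E d} {t : S0 E e} (hs : O.GE d α s)
    (ht : O.GE e β t) (h : eval P (W.wd s t) ≠ 0) : α * β = κ * m ^ (d + e + W.κ.1) := by
  let S₀ : (Fin (0 + 1) → ℂ) →ₗ[ℂ] (Fin (n + 1) → ℂ) :=
    { toFun := fun z => z 0 • P
      map_add' := fun x y => by rw [Pi.add_apply, add_smul]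
      map_smul' := fun c x => by rw [Pi.smul_apply, smul_eq_mul, mul_smul]; rfl }
  have hS : T ∘ₗ S₀ = m • S₀ := by
    apply LinearMap.ext
    intro z
    show T (z 0 • P) = m • (z 0 • P)
    rw [map_smul, hP, smul_comm]
  refine O.type_rel W hκ hS hs ht fun h0 => h ?_
  have h1 : eval (fun _ => (1 : ℂ)) (lsub S₀ (W.wd s t)) = eval P (W.wd s t) := by
    have h2 : S₀ (fun _ => (1 : ℂ)) = P := one_smul ℂ P
    rw [eval_lsub, h2]
  rw [← h1, h0, map_zero]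

/-- every eigensection with a nonzero value at a point has a partner -/
theorem partner {P : Fin (n + 1) → ℂ} (hP0 : P ≠ 0) {d : ℤ} (s : S0 E d)
    (hsP : evv (s : Vec E.a n) P ≠ 0) :
    ∃ (e : ℤ) (β : ℂ) (t : S0 E e), O.GE e β t ∧ eval P (W.wd s t) ≠ 0 := by
  obtain ⟨e, he⟩ := O.exists_ge W
  obtain ⟨β, γ, t, r, ht, hr, hne⟩ := he P hP0
  by_contra hc
  push Not at hc
  have h1 := hc e β t ht
  have h2 := hc e γ r hr
  apply hsP
  funext i
  have h3 := congrArg (eval P) (W.three s t r s.2.ker t.2.ker r.2.ker i)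
  simp only [map_add, map_sub, map_mul, map_zero] at h3
  rw [h1, h2, zero_mul, zero_mul, sub_zero, add_zero] at h3
  exact (mul_eq_zero.1 h3).resolve_left hne

/-- the two types at a fixed point -/
theorem two_types {κ : ℂ} (hκ0 : κ ≠ 0) (hκ : ∀ (a b : ℤ) (s t : Vec E.a n), Sec E a s →
      Sec E b t → W.wd (O.D s) (O.D t) = C κ * lsub T (W.wd s t)) {P : Fin (n + 1) → ℂ}
    (hP0 : P ≠ 0) {m : ℂ} (hm : m ≠ 0)
    (hP : T P = m • P) {d e : ℤ} {a b : ℂ} {s : S0 E d} {t : S0 E e} (hs : O.GE d (a * m ^ d) s)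
    (ht : O.GE e (b * m ^ e) t) (hsP : evv (s : Vec E.a n) P ≠ 0)
    (htP : evv (t : Vec E.a n) P ≠ 0) : a = b ∨ a * b = κ * m ^ W.κ.1 := by
  have red : ∀ {d e : ℤ} {x y : ℂ}, (x * m ^ d) * (y * m ^ e) = κ * m ^ (d + e + W.κ.1) →
      x * y = κ * m ^ W.κ.1 := by
    intro d e x y h
    have h1 : m ^ (d + e) ≠ 0 := zpow_ne_zero _ hm
    apply mul_right_cancel₀ h1
    have h2 : m ^ W.κ.1 * m ^ (d + e) = m ^ (d + e + W.κ.1) := by
      rw [← zpow_add₀ hm]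
      congr 1
      ring
    rw [mul_assoc κ, h2, ← h, zpow_add₀ hm]
    ring
  by_cases h0 : eval P (W.wd s t) = 0
  · left
    obtain ⟨f, γ, r, hr, hne⟩ := partner O W hP0 s hsP
    have hne2 : eval P (W.wd t r) ≠ 0 := by
      intro h1
      apply htP
      funext i
      have h3 := congrArg (eval P) (W.three s t r s.2.ker t.2.ker r.2.ker i)
      simp only [map_add, map_sub, map_mul, map_zero] at h3
      rw [h0, h1, zero_mul, zero_mul, zero_sub, add_zero, neg_eq_zero] at h3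
      exact (mul_eq_zero.1 h3).resolve_left hne
    have k0 : m ^ f ≠ 0 := zpow_ne_zero _ hm
    obtain ⟨c, rfl⟩ : ∃ c, γ = c * m ^ f := ⟨γ / m ^ f, by field_simp⟩
    have k1 := red (point_rel O W hκ hP hs hr hne)
    have k2 := red (point_rel O W hκ hP ht hr hne2)
    have hc : c ≠ 0 := by
      rintro rfl
      rw [mul_zero] at k1
      exact mul_ne_zero hκ0 (zpow_ne_zero _ hm) k1.symm
    exact mul_right_cancel₀ hc (k1.trans k2.symm)
  · right
    exact red (point_rel O W hκ hP hs ht h0)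

/-- the two types at the fixed points with the same eigenvalue -/
theorem two_types' {κ : ℂ} (hκ0 : κ ≠ 0) (hκ : ∀ (a b : ℤ) (s t : Vec E.a n), Sec E a s →
      Sec E b t → W.wd (O.D s) (O.D t) = C κ * lsub T (W.wd s t)) {P P' : Fin (n + 1) → ℂ}
    (hP0 : P ≠ 0) {m : ℂ} (hm : m ≠ 0) (hP : T P = m • P) (hP' : T P' = m • P')
    {d e : ℤ} {a b : ℂ} {s : S0 E d} {t : S0 E e} (hs : O.GE d (a * m ^ d) s)
    (ht : O.GE e (b * m ^ e) t) (hsP : evv (s : Vec E.a n) P ≠ 0)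
    (htP : evv (t : Vec E.a n) P' ≠ 0) : a = b ∨ a * b = κ * m ^ W.κ.1 := by
  obtain ⟨i, hi⟩ : ∃ i, eval P (s.1 i) ≠ 0 := by
    by_contra hc
    push Not at hc
    exact hsP (funext hc)
  obtain ⟨j, hj⟩ : ∃ j, eval P' (t.1 j) ≠ 0 := by
    by_contra hc
    push Not at hc
    exact htP (funext hc)
  obtain ⟨k, hk⟩ : ∃ k, P k ≠ 0 := by
    by_contra hc
    push Not at hc
    exact hP0 (funext hc)
  have hLP : ln P P' ![1, 0] = P := by
    rw [ln_apply]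
    simp
  have hLQ : ln P P' ![0, 1] = P' := by
    rw [ln_apply]
    simp
  have h1 : lsub (ln P P') (s.1 i) ≠ 0 := by
    intro h0
    apply hi
    rw [← hLP, ← eval_lsub, h0, map_zero]
  have h2 : lsub (ln P P') (t.1 j) ≠ 0 := by
    intro h0
    apply hj
    rw [← hLQ, ← eval_lsub, h0, map_zero]
  have h3 : lsub (ln P P') (X k) ≠ 0 := by
    intro h0
    apply hk
    have h4 : eval (ln P P' ![1, 0]) (X k : MvPolynomial (Fin (n + 1)) ℂ) = 0 := by
      rw [← eval_lsub, h0, map_zero]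
    rwa [hLP, eval_X] at h4
  obtain ⟨z, hz⟩ : ∃ z, eval z (lsub (ln P P') (s.1 i) * lsub (ln P P') (t.1 j) *
      lsub (ln P P') (X k)) ≠ 0 := by
    by_contra hc
    push Not at hc
    refine mul_ne_zero (mul_ne_zero h1 h2) h3 (MvPolynomial.funext fun z => ?_)
    rw [hc z, map_zero]
  rw [map_mul, map_mul, eval_lsub, eval_lsub, eval_lsub, eval_X] at hz
  have hx0 : ln P P' z ≠ 0 := fun h => hz (by rw [h, Pi.zero_apply, mul_zero])
  have hx : T (ln P P' z) = m • ln P P' z := by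
    rw [ln_apply, map_add, map_smul, map_smul, hP, hP']
    module
  exact two_types O W hκ0 hκ hx0 hm hx hs ht
    (fun h => hz (by
      have h5 : eval (ln P P' z) (s.1 i) = 0 := congrFun h i
      rw [h5, zero_mul, zero_mul]))
    (fun h => hz (by
      have h5 : eval (ln P P' z) (t.1 j) = 0 := congrFun h j
      rw [h5, mul_zero, zero_mul]))

/-- arithmetic of the types -/
theorem q_eq {ρ u : ℂ} (hρ : ρ ≠ 0) (hu : u ≠ 0) {c p₁ q₁ p₂ q₂ : ℤ} (h₁ : q₁ ≤ p₁)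
    (h₂ : q₂ ≤ p₂) (e₁ : c = p₁ + q₁) (e₂ : c = p₂ + q₂)
    (n₁ : ∀ j : ℤ, 0 < j → 2 * j ≤ (p₁ - q₁) + (p₂ - q₂) → ρ ^ j ≠ 1)
    (h : u * ρ ^ q₁ = u * ρ ^ q₂ ∨ (u * ρ ^ q₁) * (u * ρ ^ q₂) = u * u * ρ ^ c) :
    q₂ = q₁ := by
  rcases h with h | h
  · have h3 := mul_left_cancel₀ hu h
    rcases lt_trichotomy q₂ q₁ with hlt | heq | hlt
    · exfalso
      apply n₁ (q₁ - q₂) (by omega) (by omega)
      rw [zpow_sub₀ hρ, h3, div_self (zpow_ne_zero _ hρ)]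
    · exact heq
    · exfalso
      apply n₁ (q₂ - q₁) (by omega) (by omega)
      rw [zpow_sub₀ hρ, ← h3, div_self (zpow_ne_zero _ hρ)]
  · have h3 : ρ ^ q₁ * ρ ^ q₂ = ρ ^ c := by
      apply mul_left_cancel₀ (mul_ne_zero hu hu)
      rw [← h]
      ring
    by_contra hne
    apply n₁ (c - q₁ - q₂) (by omega) (by omega)
    rw [sub_sub, zpow_sub₀ hρ, ← h3, ← zpow_add₀ hρ, div_self (zpow_ne_zero _ hρ)]

theorem splitsOn_swap {P Q : Fin (n + 1) → ℂ} {p q : ℤ} (hs : E.SplitsOn P Q p q) :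
    E.SplitsOn P Q q p := by
  obtain ⟨g₁, g₂, a₁, a₂, a₃⟩ := hs
  refine ⟨g₂, g₁, a₂, a₁, fun z hz => ?_⟩
  obtain ⟨b₁, b₂, b₃⟩ := a₃ z hz
  refine ⟨b₂, b₁, ?_⟩
  rw [LinearIndependent.pair_iff] at b₃ ⊢
  intro a b hab
  have h1 := b₃ b a (by rw [add_comm]; exact hab)
  exact ⟨h1.2, h1.1⟩

/-- the linear map of the span of a point and a subspace -/
noncomputable def cone {k : ℕ} (P : Fin (n + 1) → ℂ)
    (S : (Fin (k + 1) → ℂ) →ₗ[ℂ] (Fin (n + 1) → ℂ)) :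
    (Fin (k + 1 + 1) → ℂ) →ₗ[ℂ] (Fin (n + 1) → ℂ) where
  toFun x := x 0 • P + S (fun i => x i.succ)
  map_add' x y := by
    have h1 : (fun i : Fin (k + 1) => (x + y) i.succ) =
        (fun i : Fin (k + 1) => x i.succ) + fun i : Fin (k + 1) => y i.succ := rfl
    rw [h1, map_add, Pi.add_apply]
    module
  map_smul' c x := by
    have h1 : (fun i : Fin (k + 1) => (c • x) i.succ) =
        c • (fun i : Fin (k + 1) => x i.succ) := rfl
    rw [h1, map_smul, Pi.smul_apply, smul_eq_mul, RingHom.id_apply]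
    module

theorem cone_apply {k : ℕ} (P : Fin (n + 1) → ℂ)
    (S : (Fin (k + 1) → ℂ) →ₗ[ℂ] (Fin (n + 1) → ℂ)) (x : Fin (k + 1 + 1) → ℂ) :
    cone P S x = x 0 • P + S (fun i => x i.succ) := rfl

theorem cone_lpt {k : ℕ} (P : Fin (n + 1) → ℂ)
    (S : (Fin (k + 1) → ℂ) →ₗ[ℂ] (Fin (n + 1) → ℂ)) (v : Fin (k + 1) → ℂ) (z : Fin 2 → ℂ) :
    cone P S (Bundle2.lpt v z) = z 0 • P + z 1 • S v := by
  rw [cone_apply, ← map_smul]
  rfl

/-- The splitting types of the lines joining an eigenspace to a large eigenspace. -/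
theorem main (O : GOp E T) (hT : Function.Injective T) (hE : ¬ E.Splits) {l m : ℂ}
    (hl3 : 3 ≤ Module.finrank ℂ (LinearMap.ker (T - l • LinearMap.id)))
    {P : Fin (n + 1) → ℂ} (hP0 : P ≠ 0) (hP : T P = m • P) (hml : m ≠ l)
    {P₀ Q₀ : Fin (n + 1) → ℂ} (hP₀ : P₀ ≠ 0) (hTP₀ : T P₀ = m • P₀) (hQ₀ : Q₀ ≠ 0)
    (hTQ₀ : T Q₀ = l • Q₀) {p₀ q₀ : ℤ} (hq₀ : q₀ ≤ p₀) (hs₀ : E.SplitsOn P₀ Q₀ p₀ q₀) :
    (∀ Q : Fin (n + 1) → ℂ, Q ≠ 0 → T Q = l • Q → ∀ p q : ℤ, q ≤ p → E.SplitsOn P Q p q →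
      (m / l) ^ (q - q₀) = 1 ∨ (m / l) ^ (p - q₀) = 1) ∧
    ∃ Q : Fin (n + 1) → ℂ, Q ≠ 0 ∧ T Q = l • Q ∧ ∃ p q : ℤ, q ≤ p ∧ E.SplitsOn P Q p q ∧
      ∃ j : ℕ, 0 < j ∧ 2 * (j : ℤ) ≤ (p - q) + (p₀ - q₀) ∧ (m / l) ^ j = 1 := by
  have hm : m ≠ 0 := by
    rintro rfl
    rw [zero_smul] at hP
    exact hP0 (hT (by rw [hP, map_zero]))
  obtain ⟨k, S, hk2, hkn, hSi, hTS, hr⟩ := exists_S l hl3
  have hSe : ∀ v, T (S v) = l • S v := fun v => LinearMap.congr_fun hTS v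
  have hl : l ≠ 0 := by
    rintro rfl
    have h1 := hSe (fun _ => 1)
    rw [zero_smul] at h1
    have h2 : S (fun _ => 1) = 0 := hT (by rw [h1, map_zero])
    have h3 : (fun _ : Fin (k + 1) => (1 : ℂ)) = 0 := hSi (by rw [h2, map_zero])
    simpa using congrFun h3 0
  have hS0 : ∀ v, v ≠ 0 → S v ≠ 0 := fun v hv h0 => hv (hSi (by rw [h0, map_zero]))
  have hPQ : ∀ P Q : Fin (n + 1) → ℂ, P ≠ 0 → T P = m • P → Q ≠ 0 → T Q = l • Q →
      LinearIndependent ℂ ![P, Q] := by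
    intro P Q hP0 hP hQ0 hQ
    rw [LinearIndependent.pair_iff]
    intro a b hab
    have h1 := congrArg T hab
    rw [map_add, map_smul, map_smul, hP, hQ, map_zero] at h1
    have h2 : (a * (m - l)) • P = 0 := by
      have h3 : (a * (m - l)) • P = (a • m • P + b • l • Q) - l • (a • P + b • Q) := by
        module
      rw [h3, h1, hab, smul_zero, sub_zero]
    have h4 : a * (m - l) = 0 := (smul_eq_zero.1 h2).resolve_right hP0
    have h5 : a = 0 := (mul_eq_zero.1 h4).resolve_right (sub_ne_zero.2 hml)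
    rw [h5, zero_smul, zero_add] at hab
    exact ⟨h5, (smul_eq_zero.1 hab).resolve_right hQ0⟩
  have hn : 1 ≤ n := by omega
  obtain ⟨W⟩ := exists_wedge hn (triv E)
  obtain ⟨κ, hκ0, hκ⟩ := O.det W hn hT
  have hES : ¬ (E.pull S hSi).Splits := fun h =>
    hE (Bundle2.splits_of_pull (n - k) k n hk2 (by omega) E S hSi h)
  obtain ⟨u, hu, hu'⟩ := O.typeV W hκ0 hκ (by omega) S hSi hl hTS hES
  have hu0 : u ≠ 0 := by
    rintro rfl
    rw [mul_zero] at hu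
    exact mul_ne_zero hκ0 (zpow_ne_zero _ hl) hu.symm
  set ρ := m / l with hρdef
  have hρ : ρ ≠ 0 := div_ne_zero hm hl
  have hκu : κ * m ^ W.κ.1 = u * u * ρ ^ W.κ.1 := by
    rw [hu, hρdef, div_zpow, mul_assoc, mul_div_cancel₀ _ (zpow_ne_zero _ hl)]
  -- the facts on the lines
  have fact : ∀ P : Fin (n + 1) → ℂ, P ≠ 0 → T P = m • P →
      ∀ v : Fin (k + 1) → ℂ, v ≠ 0 → ∀ p q : ℤ, q ≤ p → E.SplitsOn P (S v) p q →
      W.κ.1 = p + q ∧
      (∃ (d : ℤ) (s : S0 E d), O.GE d (u * ρ ^ q * m ^ d) s ∧ evv (s : Vec E.a n) P ≠ 0) ∧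
      (q < p → ∀ g : Vec E.a 1, (∀ i, HomZ (g i) (E.β i + -p)) → (∀ z : Fin 2 → ℂ, z ≠ 0 →
          evv g z ∈ E.fib (z 0 • P + z 1 • S v)) →
        ∀ (d : ℤ) (b : ℂ) (s : S0 E d), O.GE d (b * m ^ d) s → evv (s : Vec E.a n) P ≠ 0 →
          b ≠ u * ρ ^ q → ∃ c : ℂ, evv g ![1, 0] = c • evv (s : Vec E.a n) P) := by
    intro P hP0 hP v hv p q hqp hs
    have hQ0 := hS0 v hv
    have hQ := hSe v
    have hli := hPQ _ _ hP0 hP hQ0 hQ
    obtain ⟨hsum, τ, ⟨d, α, s, hs1, hs2, hs3⟩, ⟨d', α', s', hs1', hs2', hs3'⟩, hdir⟩ :=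
      lineK O W hli hm hl hP hQ hs hqp
    have hτ : τ * l ^ q = u := by
      have h1 := hu' d α s hs1 (by
        by_contra hc
        push Not at hc
        apply hs2
        funext i
        have h1 : eval (S v) (s.1 i) = 0 := by
          rw [← eval_lsub]
          have h2 : lsub S (s.1 i) = 0 := hc i
          rw [h2, map_zero]
        exact h1)
      rw [hs3, zpow_add₀ hl] at h1
      apply mul_right_cancel₀ (zpow_ne_zero d hl)
      rw [← h1]
      ring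
    have hτ2 : ∀ d : ℤ, τ * m ^ (d + q) = u * ρ ^ q * m ^ d := by
      intro d
      rw [← hτ, hρdef, div_zpow, zpow_add₀ hm]
      have h1 : l ^ q ≠ 0 := zpow_ne_zero _ hl
      field_simp
    refine ⟨hsum, ⟨d', s', by rw [← hτ2, ← hs3']; exact hs1', hs2'⟩, ?_⟩
    intro hlt g hg1 hg2 e b t ht htP hb
    refine hdir hlt g ?_ e (b * m ^ e) t ht htP ?_
    · apply sec_of_isSection
      refine ⟨fun i => hg1 i, fun z hz => ?_⟩
      rw [Bundle2.fib_pull]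
      exact hg2 z hz
    · rw [hτ2]
      intro h
      exact hb (mul_right_cancel₀ (zpow_ne_zero _ hm) h)
  obtain ⟨v₀, rfl⟩ := hr Q₀ hTQ₀
  have hv₀ : v₀ ≠ 0 := by
    rintro rfl
    exact hQ₀ (map_zero _)
  obtain ⟨hsum₀, ⟨d₀, s₀, hs₀', hsP₀⟩, -⟩ := fact P₀ hP₀ hTP₀ v₀ hv₀ p₀ q₀ hq₀ hs₀
  have cong : ∀ v : Fin (k + 1) → ℂ, v ≠ 0 → ∀ p q : ℤ, q ≤ p → E.SplitsOn P (S v) p q →
      u * ρ ^ q₀ = u * ρ ^ q ∨ (u * ρ ^ q₀) * (u * ρ ^ q) = u * u * ρ ^ W.κ.1 := by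
    intro v hv p q hqp hsv
    obtain ⟨hsum', ⟨d', s', hs', hsP'⟩, -⟩ := fact P hP0 hP v hv p q hqp hsv
    have h1 := two_types' O W hκ0 hκ hP₀ hm hTP₀ hP hs₀' hs' hsP₀ hsP'
    rwa [hκu] at h1
  refine ⟨?_, ?_⟩
  · intro Q hQ0 hQ p q hqp hsQ
    obtain ⟨v, rfl⟩ := hr Q hQ
    have hv : v ≠ 0 := by
      rintro rfl
      exact hQ0 (map_zero _)
    have hsum := (fact P hP0 hP v hv p q hqp hsQ).1
    rcases cong v hv p q hqp hsQ with h | h
    · left
      rw [zpow_sub₀ hρ, ← mul_left_cancel₀ hu0 h, div_self (zpow_ne_zero _ hρ)]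
    · right
      have h3 : ρ ^ q₀ * ρ ^ q = ρ ^ W.κ.1 := by
        apply mul_left_cancel₀ (mul_ne_zero hu0 hu0)
        rw [← h]
        ring
      have h4 : p - q₀ = W.κ.1 - (q₀ + q) := by omega
      rw [h4, zpow_sub₀ hρ, ← h3, ← zpow_add₀ hρ, div_self (zpow_ne_zero _ hρ)]
  by_contra hno
  push Not at hno
  have hno' : ∀ v : Fin (k + 1) → ℂ, v ≠ 0 → ∀ p q : ℤ, q ≤ p → E.SplitsOn P (S v) p q →
      ∀ j : ℤ, 0 < j → 2 * j ≤ (p₀ - q₀) + (p - q) → ρ ^ j ≠ 1 := by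
    intro v hv p q hqp hsv j h0 hjl
    obtain ⟨j', rfl⟩ := Int.eq_ofNat_of_zero_le h0.le
    rw [zpow_natCast]
    exact hno _ (hS0 v hv) (hSe v) p q hqp hsv j' (by omega) (by omega)
  -- all lines have the same type
  have same : ∀ v : Fin (k + 1) → ℂ, v ≠ 0 → E.SplitsOn P (S v) p₀ q₀ := by
    intro v hv
    obtain ⟨p, q, hqp, hsv⟩ : ∃ p q : ℤ, q ≤ p ∧ E.SplitsOn P (S v) p q := by
      obtain ⟨p, q, h⟩ := H106R3.VB.splitsOn_exists E (hPQ _ _ hP0 hP (hS0 v hv) (hSe v))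
      rcases le_total q p with hle | hle
      · exact ⟨p, q, hle, h⟩
      · exact ⟨q, p, hle, splitsOn_swap h⟩
    have hsum' := (fact P hP0 hP v hv p q hqp hsv).1
    have h2 := q_eq hρ hu0 hq₀ hqp hsum₀ hsum' (hno' v hv p q hqp hsv) (cong v hv p q hqp hsv)
    have h5 : p = p₀ := by omega
    subst h2 h5
    exact hsv
  have hj : ∀ j : ℤ, 0 < j → j ≤ p₀ - q₀ → ρ ^ j ≠ 1 := fun j h0 hjl =>
    hno' v₀ hv₀ p₀ q₀ hq₀ (same v₀ hv₀) j h0 (by omega)
  obtain ⟨-, ⟨d, s, hs, hsP⟩, -⟩ := fact P hP0 hP v₀ hv₀ p₀ q₀ hq₀ (same v₀ hv₀)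
  -- the span of the point and the eigenspace
  have hΛ : Function.Injective (cone P S) := by
    rw [← LinearMap.ker_eq_bot, LinearMap.ker_eq_bot']
    intro x hx
    rw [cone_apply] at hx
    have hx0 : x 0 = 0 ∧ (fun i : Fin (k + 1) => x i.succ) = 0 := by
      by_cases h0 : (fun i : Fin (k + 1) => x i.succ) = 0
      · rw [h0, map_zero, add_zero] at hx
        exact ⟨(smul_eq_zero.1 hx).resolve_right hP0, h0⟩
      · exfalso
        have h1 := hPQ _ _ hP0 hP (hS0 _ h0) (hSe _)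
        rw [LinearIndependent.pair_iff] at h1
        have h2 := (h1 (x 0) 1 (by rw [one_smul]; exact hx)).2
        exact one_ne_zero h2
    funext i
    refine Fin.cases ?_ (fun i => ?_) i
    · exact hx0.1
    · exact congrFun hx0.2 i
  have hkn' : k + 1 ≤ n := by
    have h1 := LinearMap.finrank_le_finrank_of_injective hΛ
    rw [Module.finrank_fintype_fun_eq_card, Module.finrank_fintype_fun_eq_card, Fintype.card_fin,
      Fintype.card_fin] at h1
    omega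
  apply hE
  apply Bundle2.splits_of_pull (n - (k + 1)) (k + 1) n (by omega) (by omega) E (cone P S) hΛ
  have hspl : ∀ v : Fin (k + 1) → ℂ, v ≠ 0 →
      (E.pull (cone P S) hΛ).SplitsOn (Fin.cons 1 0) (Fin.cons 0 v) p₀ q₀ := by
    intro v hv
    obtain ⟨g₁, g₂, a₁, a₂, a₃⟩ := same v hv
    refine ⟨g₁, g₂, a₁, a₂, fun z hz => ?_⟩
    rw [Bundle2.fib_pull, L2.line_pt, cone_lpt]
    exact a₃ z hz
  rcases lt_or_eq_of_le hq₀ with hlt | heq
  · -- the partner gives the direction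
    obtain ⟨e, β, t, ht, hne⟩ := partner O W hP0 s hsP
    have htP : evv (t : Vec E.a n) P ≠ 0 := by
      have h1 := (W.ind P hP0 _ _ s.2.ker t.2.ker).1 hne
      exact h1.ne_zero 1
    obtain ⟨b, rfl⟩ : ∃ b, β = b * m ^ e :=
      ⟨β / m ^ e, by rw [div_mul_cancel₀ _ (zpow_ne_zero _ hm)]⟩
    have hb : b ≠ u * ρ ^ q₀ := by
      rintro rfl
      have h1 := point_rel O W hκ hP hs ht hne
      apply hj (p₀ - q₀) (by omega) (le_refl _)
      have h2 : κ * m ^ (d + e + W.κ.1) = (u * u * ρ ^ W.κ.1) * m ^ (d + e) := by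
        rw [← hκu, mul_assoc, ← zpow_add₀ hm]
        congr 2
        ring
      rw [h2, zpow_add₀ hm] at h1
      have h3 : (u * u * (m ^ d * m ^ e)) * (ρ ^ q₀ * ρ ^ q₀) =
          (u * u * (m ^ d * m ^ e)) * ρ ^ W.κ.1 := by
        linear_combination h1
      have h4 := mul_left_cancel₀ (mul_ne_zero (mul_ne_zero hu0 hu0)
        (mul_ne_zero (zpow_ne_zero _ hm) (zpow_ne_zero _ hm))) h3
      have h5 : p₀ - q₀ = W.κ.1 - (q₀ + q₀) := by omega
      rw [h5, zpow_sub₀ hρ, ← h4, zpow_add₀ hρ, div_self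
        (mul_ne_zero (zpow_ne_zero _ hρ) (zpow_ne_zero _ hρ))]
    have hcone1 : cone P S (Fin.cons 1 0) = P := by
      rw [cone_apply]
      have h1 : (fun i : Fin (k + 1) => (Fin.cons 1 0 : Fin (k + 1 + 1) → ℂ) i.succ) = 0 := by
        funext i
        simp
      rw [h1, map_zero, add_zero, Fin.cons_zero, one_smul]
    refine splits_of_dir (n := k + 1) (by omega) (E.pull (cone P S) hΛ) hlt hspl
      (evv (t : Vec E.a n) P) ?_ htP ?_
    · rw [Bundle2.fib_pull, hcone1]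
      exact (isSection t.2).2 P hP0
    · intro v hv g hg
      have hfib : ∀ z : Fin 2 → ℂ, z ≠ 0 → evv (L2.gp (E.pull (cone P S) hΛ) g) z ∈
          E.fib (z 0 • P + z 1 • S v) := by
        intro z _
        have h1 := (Bundle2.mem_Hsec (E.pull (cone P S) hΛ) (-p₀) v g).1 hg z
        have h2 := L2.evv_gp (E.pull (cone P S) hΛ) g z
        have h3 : evv (L2.gp (E.pull (cone P S) hΛ) g) z ∈
            (E.pull (cone P S) hΛ).fib (Bundle2.lpt v z) := by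
          rw [h2]
          unfold Bundle2.fib
          rw [LinearMap.mem_ker, Matrix.mulVecLin_apply]
          exact h1
        rw [Bundle2.fib_pull, cone_lpt] at h3
        exact h3
      obtain ⟨c, hc⟩ := (fact P hP0 hP v hv p₀ q₀ hq₀ (same v hv)).2.2 hlt (L2.gp (E.pull (cone P S) hΛ) g)
        (fun i => L2.homZ_gp (E.pull (cone P S) hΛ) g i) hfib e b t ht htP hb
      refine ⟨c, Eq.trans ?_ hc⟩
      funext i
      have h1 := congrFun (L2.evv_gp (E.pull (cone P S) hΛ) g ![1, 0]) i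
      have h2 := Bundle2.lev_at_zero (E.pull (cone P S) hΛ) g ![1, 0] (by simp) i
      rw [h2] at h1
      simp only [Matrix.cons_val_zero, one_pow, mul_one] at h1
      exact h1.symm
  · refine Bundle2.main_e0 (n := k + 1) (by omega) (E.pull (cone P S) hΛ) fun v hv => ?_
    refine ⟨p₀, q₀, ?_, hspl v hv⟩
    rw [heq, sub_self, abs_zero]
    omega

end Pool.Agent.W467.LO
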